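import Pool.Agent.H68.SF.LT
import Pool.Agent.H9.SF.Bas

/-! Part L, module LEZ: `ZFm` and `ZFCm` go down along elementary maps. -/

open Ordinal Cardinal Order Set
open scoped ZFSet

namespace SF

private theorem lez_shr (x z : V) (v : ℕ → V) :
    (fun i => cons x (cons z v) (shr 1 i)) = cons x v := by
  funext i; cases i <;> rfl

private theorem lez_ext {N' z S : V} (hN' : N'.IsTransitive) (hz : z ∈ N') (hS : ∀ w ∈ S, w ∈ N')
    (h : ∀ w ∈ N', (w ∈ z ↔ w ∈ S)) : S ∈ N' := by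
  have e : z = S := by
    ext w
    exact ⟨fun hw => (h w (hN' z hz hw)).1 hw, fun hw => (h w (hS w hw)).2 hw⟩
  rwa [← e]

/-- transfer of the existence of a set which is defined by a definable relation -/
private theorem lez_set (hLED : T_LED) {N' N f : V} (hN' : N'.IsTransitive)
    (hN : KT (· ∈ N)) (hf : IsElem N' N f)
    {Q : (V → Prop) → (ℕ → V) → Prop} (hQ : Dfb KT Q) (v : ℕ → V) (hv : ∀ i, v i ∈ N')
    (h : ∃ z, z ∈ N ∧ ∀ w, w ∈ N → (w ∈ z ↔ Q (· ∈ N) (cons w fun i => app f (v i)))) :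
    ∃ z, z ∈ N' ∧ ∀ w, w ∈ N' → (w ∈ z ↔ Q (· ∈ N') (cons w v)) := by
  have hR : Dfb KT (fun M v => ∃ z, M z ∧ ∀ w, M w → (w ∈ z ↔ Q M (cons w v))) := by
    have h1 : Dfb KT (fun M v => v 0 ∈ v 1 ↔ Q M (fun i => v (shr 1 i))) :=
      (Dfb.mem (Tm.var 0) (Tm.var 1)).iff (hQ.rn (shr 1))
    refine h1.all.ex.congr fun M k v hv => ?_
    simp only [lez_shr]
    exact Iff.rfl
  exact (hLED KT _ hR N' N f hf (fun x hx y hy => hN' x hx hy) hN v hv).2 h

private theorem lez_empty : Dfb KT (fun _ v => v 0 = ∅) := by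
  refine (Dfb.ball (R := fun _ _ => False) ktr_kt (Tm.var 0) Dfb.fls).congr fun M k v hv => ?_
  rw [ZFSet.eq_empty]

private theorem lez_ins : Dfb KT (fun _ v => v 0 = insert (v 1) (v 1)) := by
  have h1 : Dfb KT (fun _ v => ∀ w ∈ v 0, (w = v 1 ∨ w ∈ v 1)) :=
    Dfb.ball (R := fun _ v => v 0 = v 2 ∨ v 0 ∈ v 2) ktr_kt (Tm.var 0)
      ((Dfb.eq (Tm.var 0) (Tm.var 2)).or (Dfb.mem (Tm.var 0) (Tm.var 2)))
  have h2 : Dfb KT (fun _ v => ∀ w ∈ v 1, w ∈ v 0) :=
    Dfb.ball (R := fun _ v => v 0 ∈ v 1) ktr_kt (Tm.var 1) (Dfb.mem (Tm.var 0) (Tm.var 1))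
  refine ((h1.and h2).and (Dfb.mem (Tm.var 1) (Tm.var 0))).congr fun M k v hv => ?_
  constructor
  · rintro ⟨⟨a, b⟩, c⟩
    ext w
    rw [ZFSet.mem_insert_iff]
    exact ⟨a w, fun hw => hw.elim (fun hw => hw ▸ c) (b w)⟩
  · intro h
    have hm : ∀ w, w ∈ v 0 ↔ w = v 1 ∨ w ∈ v 1 := fun w => by
      rw [h, ZFSet.mem_insert_iff]
    exact ⟨⟨fun w hw => (hm w).1 hw, fun w hw => (hm w).2 (Or.inr hw)⟩, (hm _).2 (Or.inl rfl)⟩

private theorem lez_om : Dfb KT (fun _ v => v 0 = om) := by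
  have h1 : Dfb KT (fun _ v => ∃ e ∈ v 0, e = (∅ : V)) :=
    Dfb.bex (R := fun _ v => v 0 = (∅ : V)) ktr_kt (Tm.var 0) lez_empty
  have h2 : Dfb KT (fun _ v => ∀ y ∈ v 0, ∃ s ∈ v 0, s = insert y y) :=
    Dfb.ball (R := fun _ v => ∃ s ∈ v 1, s = insert (v 0) (v 0)) ktr_kt (Tm.var 0)
      (Dfb.bex (R := fun _ v => v 0 = insert (v 1) (v 1)) ktr_kt (Tm.var 1) lez_ins)
  have h3 : Dfb KT (fun _ v => ∀ y ∈ v 0, (y = ∅ ∨ ∃ z ∈ v 0, y = insert z z)) :=
    Dfb.ball (R := fun _ v => v 0 = ∅ ∨ ∃ z ∈ v 1, v 0 = insert z z) ktr_kt (Tm.var 0)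
      (lez_empty.or (Dfb.bex (R := fun _ v => v 1 = insert (v 0) (v 0)) ktr_kt (Tm.var 1)
        ((lez_ins.rn (fun i => if i = 0 then 1 else if i = 1 then 0 else i)).congr
          fun M k v hv => Iff.rfl)))
  refine ((h1.and h2).and h3).congr fun M k v hv => ?_
  rw [om_char]
  constructor
  · rintro ⟨⟨⟨e, he, rfl⟩, b⟩, c⟩
    refine ⟨he, fun y hy => ?_, c⟩
    obtain ⟨s, hs, rfl⟩ := b y hy
    exact hs
  · rintro ⟨a, b, c⟩
    exact ⟨⟨⟨_, a, rfl⟩, fun y hy => ⟨_, b y hy, rfl⟩⟩, c⟩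

private theorem lez_sat (φ : Fml) : Dfb KT (fun M v => Sat M φ v) :=
  ⟨φ, fun _ _ _ _ => Iff.rfl⟩

private theorem lez_zf (hLED : T_LED) {N' N f : V} (hne : N'.Nonempty) (hN' : N'.IsTransitive)
    (hf : IsElem N' N f) (k : ZFm (· ∈ N)) : ZFm (· ∈ N') := by
  have kt' : KT (· ∈ N') := fun x hx y hy => hN' x hx hy
  have kt : KT (· ∈ N) := fun x hx y hy => k.trans x hx y hy
  have ha : ∀ x ∈ N', app f x ∈ N := fun x hx => app_mem hf.func hx
  refine ⟨kt', ?_, ?_, ?_, ?_, ?_⟩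
  · -- pair
    intro x y hx hy
    obtain ⟨z, hz, h⟩ := lez_set hLED hN' kt hf (Q := fun _ v => v 0 = v 1 ∨ v 0 = v 2)
      ((Dfb.eq (Tm.var 0) (Tm.var 1)).or (Dfb.eq (Tm.var 0) (Tm.var 2))) (cons x fun _ => y)
      (In.cons (M := (· ∈ N')) (fun _ => hy) hx)
      ⟨_, k.pair _ _ (ha x hx) (ha y hy), fun w hw => by
        rw [ZFSet.mem_pair]
        exact Iff.rfl⟩
    refine lez_ext hN' hz (fun w hw => ?_) fun w hw => (h w hw).trans ?_
    · rcases ZFSet.mem_pair.1 hw with rfl | rfl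
      · exact hx
      · exact hy
    · rw [ZFSet.mem_pair]
      exact Iff.rfl
  · -- union
    intro x hx
    obtain ⟨z, hz, h⟩ := lez_set hLED hN' kt hf (Q := fun _ v => ∃ y ∈ v 1, v 0 ∈ y)
      (Dfb.bex (R := fun _ v => v 1 ∈ v 0) ktr_kt (Tm.var 1) (Dfb.mem (Tm.var 1) (Tm.var 0)))
      (fun _ => x) (fun _ => hx)
      ⟨_, k.union _ (ha x hx), fun w hw => by
        rw [ZFSet.mem_sUnion]
        exact Iff.rfl⟩
    refine lez_ext hN' hz (fun w hw => ?_) fun w hw => (h w hw).trans ?_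
    · obtain ⟨y, hy, hw⟩ := ZFSet.mem_sUnion.1 hw
      exact hN' y (hN' x hx hy) hw
    · rw [ZFSet.mem_sUnion]
      exact Iff.rfl
  · -- infinity
    have hR : Dfb KT (fun M _ => ∃ z, M z ∧ z = om) := lez_om.ex
    obtain ⟨x, hx⟩ := hne
    obtain ⟨z, hz, rfl⟩ := (hLED KT _ hR N' N f hf kt' kt (fun _ => x) (fun _ => hx)).2
      ⟨_, k.inf, rfl⟩
    exact hz
  · -- separation
    intro φ v a hv ha'
    obtain ⟨z, hz, h⟩ := lez_set hLED hN' kt hf
      (Q := fun M v => v 0 ∈ v 1 ∧ Sat M φ (fun i => v (shr 1 i)))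
      ((Dfb.mem (Tm.var 0) (Tm.var 1)).and ((lez_sat φ).rn (shr 1))) (cons a v)
      (In.cons (M := (· ∈ N')) hv ha')
      ⟨_, k.sep φ (fun i => app f (v i)) (app f a) (fun i => ha _ (hv i)) (ha a ha'),
        fun w hw => by
          rw [ZFSet.mem_sep]
          have e : (fun i => cons w (fun i => app f (cons a v i)) (shr 1 i)) =
              cons w fun i => app f (v i) := by
            funext i; cases i <;> rfl
          rw [e]
          exact Iff.rfl⟩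
    refine lez_ext hN' hz (fun w hw => hN' a ha' (ZFSet.mem_sep.1 hw).1)
      fun w hw => (h w hw).trans ?_
    rw [ZFSet.mem_sep, lez_shr]
    exact Iff.rfl
  · -- collection
    intro φ v a hv ha' hc
    have h1 : Dfb KT (fun M v => Sat M φ (fun i => v (if i = 0 then 0 else if i = 1 then 1
        else i + 1))) := (lez_sat φ).rn _
    have h2 : Dfb KT (fun M v => Sat M φ (fun i => v (if i = 0 then 0 else if i = 1 then 1
        else i + 2))) := (lez_sat φ).rn _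
    have e1 : ∀ (y x a : V) (v : ℕ → V), (fun i => cons y (cons x (cons a v))
        (if i = 0 then 0 else if i = 1 then 1 else i + 1)) = cons y (cons x v) := by
      intro y x a v
      funext i
      rcases i with _ | _ | i <;> rfl
    have e2 : ∀ (y x b a : V) (v : ℕ → V), (fun i => cons y (cons x (cons b (cons a v)))
        (if i = 0 then 0 else if i = 1 then 1 else i + 2)) = cons y (cons x v) := by
      intro y x b a v
      funext i
      rcases i with _ | _ | i <;> rfl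
    have hR : Dfb KT (fun M v => (∀ x ∈ v 0, ∃ y, M y ∧
        Sat M φ (fun i => cons y (cons x v) (if i = 0 then 0 else if i = 1 then 1 else i + 1))) →
        ∃ b, M b ∧ ∀ x ∈ v 0, ∃ y ∈ b, Sat M φ (fun i => cons y (cons x (cons b v))
          (if i = 0 then 0 else if i = 1 then 1 else i + 2))) := by
      refine Dfb.imp ?_ ?_
      · exact Dfb.ball ktr_kt (Tm.var 0) h1.ex
      · exact Dfb.ex (Dfb.ball ktr_kt (Tm.var 1) (Dfb.bex ktr_kt (Tm.var 1) h2))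
    have h3 := (hLED KT _ hR N' N f hf kt' kt (cons a v) (In.cons (M := (· ∈ N')) hv ha')).2 ?_
    · simp only [e1, e2, cons_zero] at h3
      exact h3 hc
    · have e3 : (fun i => app f (cons a v i)) = cons (app f a) fun i => app f (v i) := by
        funext i; cases i <;> rfl
      rw [e3]
      simp only [e1, e2, cons_zero]
      exact k.coll φ (fun i => app f (v i)) (app f a) (fun i => ha _ (hv i)) (ha a ha')

theorem pf_LEZ (hLED : T_LED) : T_LEZ := by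
  intro N' N f hne hN' hf
  refine ⟨fun k => lez_zf hLED hne hN' hf k, fun k => ?_⟩
  have k0 : ZFm (· ∈ N) := k.toZFm
  have k' := lez_zf hLED hne hN' hf k0
  refine { k' with wo := ?_ }
  intro x hx
  have hR : Dfb ZFm (fun M v => ∃ α, M α ∧ ∃ g, M g ∧ (IsOrd α ∧ Onto g α (v 0))) := by
    have h1 : Dfb ZFm (fun _ v => IsOrd (v 1) ∧ Onto (v 0) (v 1) (v 2)) :=
      (Dfb.isOrd (Tm.var 1)).and (Dfb.onto (Tm.var 0) (Tm.var 1) (Tm.var 2))
    exact h1.ex.ex
  obtain ⟨α, g, hg, hα⟩ := k.wo (app f x) (app_mem hf.func hx)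
  have hd : dm g = α.toZFSet := by
    ext z
    rw [mem_dm]
    constructor
    · rintro ⟨y, hy⟩
      exact (ZFSet.pair_mem_prod.1 (hα.1.1 hy)).1
    · intro hz
      exact ⟨_, pair_app_mem hα.1 hz⟩
  have hαN : α.toZFSet ∈ N := by
    rw [← hd]
    exact (Tm.dm (Tm.var 0)).1 (· ∈ N) k0 (fun _ => g) (fun _ => hg)
  obtain ⟨α', -, g', hg', ⟨β, rfl⟩, h2⟩ := (hLED ZFm _ hR N' N f hf k' k0 (fun _ => x)
    (fun _ => hx)).2 ⟨_, hαN, g, hg, ⟨α, rfl⟩, hα⟩
  exact ⟨β, g', hg', h2⟩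

end SF
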