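import Pool.Agent.H68.SF.LT

/-! Part L, module LHE: the height of a level which is a model of `ZFm`. -/

open Ordinal Cardinal Order Set
open scoped ZFSet

namespace SF

private theorem lhe_succ {M : V → Prop} (k : ZFm M) {α : Ordinal.{0}} (h : M α.toZFSet) :
    M (Order.succ α).toZFSet := by
  have h1 : M ({α.toZFSet} : V) := by
    have := k.pair _ _ h h
    rwa [ZFSet.pair_eq_singleton] at this
  have h2 := k.union _ (k.pair _ _ h1 h)
  have e : (⋃₀ ({{α.toZFSet}, α.toZFSet} : V) : ZFSet) = (Order.succ α).toZFSet := by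
    rw [Order.succ_eq_add_one, Ordinal.toZFSet_add_one]
    ext z
    rw [ZFSet.mem_sUnion, ZFSet.mem_insert_iff]
    constructor
    · rintro ⟨w, hw, hz⟩
      rcases ZFSet.mem_pair.1 hw with rfl | rfl
      · exact Or.inl (ZFSet.mem_singleton.1 hz)
      · exact Or.inr hz
    · rintro (hz | hz)
      · exact ⟨_, ZFSet.mem_pair.2 (Or.inl rfl), ZFSet.mem_singleton.2 hz⟩
      · exact ⟨_, ZFSet.mem_pair.2 (Or.inr rfl), hz⟩
  rwa [e] at h2

theorem pf_LHE (hT : T_LHT) : T_LHE := by
  intro a A γ ha k haM hAM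
  have key : ∀ α : Ordinal.{0}, α.toZFSet ∈ Lh a A γ ↔ α < γ := by
    intro α
    refine ⟨fun h => ?_, fun h => ord_mem_Lh ha h⟩
    by_contra hc
    rw [not_lt] at hc
    have hγ : γ.toZFSet ∈ Lh a A γ := by
      rcases hc.eq_or_lt with h1 | h1
      · have h2 := h
        rw [← h1] at h2
        exact h2
      · exact k.trans _ h _ (Ordinal.toZFSet_mem_toZFSet_iff.2 h1)
    have h2 := hT.1 (· ∈ Lh a A γ) k (cons a (cons A fun _ => γ.toZFSet))
      (In.cons (In.cons (fun _ => hγ) hAM) haM)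
    simp only [cons_zero, cons_succ, Ordinal.rank_toZFSet] at h2
    exact ZFSet.mem_irrefl _ h2
  refine ⟨?_, key⟩
  rw [Order.isSuccLimit_iff]
  refine ⟨?_, ?_⟩
  · intro h0
    have h1 := (key ω).1 k.inf
    exact (h0.eq_bot ▸ h1 : ω < (⊥ : Ordinal.{0})).not_ge bot_le
  · rw [Order.isSuccPrelimit_iff_succ_lt]
    intro β hβ
    exact (key _).1 (lhe_succ k ((key β).2 hβ))

end SF
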