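import Pool.Agent.H77.SF.KT2

/-! Inaccessible cardinals are inaccessible ordinals. -/

open Ordinal Cardinal Order Set
open scoped ZFSet

namespace SF.H14

open SF

theorem kv : T_KV := by
  intro κ hκ
  have hlim : IsSuccLimit κ.ord := Cardinal.isSuccLimit_ord hκ.1.le
  refine ⟨hlim, ?_, ?_⟩
  · rw [Cardinal.lt_ord, Ordinal.card_omega]
    exact (Cardinal.aleph_one_le_continuum).trans_lt (hκ.isStrongPrelimit hκ.aleph0_lt)
  · intro x hx f hf
    have hr : x.rank < κ.ord := ZFSet.mem_vonNeumann.1 hx
    have hc : x.card < κ := by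
      have h1 : x ⊆ V_ x.rank := by
        intro y hy
        exact ZFSet.mem_vonNeumann.2 (ZFSet.rank_lt_of_mem hy)
      have h2 := ZFSet.card_mono h1
      rw [ZFSet.card_vonNeumann] at h2
      refine h2.trans_lt ?_
      conv_rhs => rw [← hκ.preBeth_ord]
      exact preBeth_strictMono hr
    rw [ZFSet.mem_vonNeumann, ZFSet.rank_range]
    have h1 : #(El x) = Cardinal.lift.{1} x.card := by
      rw [← ZFSet.cardinalMk_coe_sort]
      exact Cardinal.mk_congr (El.equiv x)
    have h2 : ∀ i, ZFSet.rank (f i) < κ.ord := fun i => ZFSet.mem_vonNeumann.1 (hf i)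
    have := lift_iSup_add_one_lt_of_lt_cof (β := El x) (f := fun i => ZFSet.rank (f i))
      (a := κ.ord) ?_ h2
    · simpa [Order.succ_eq_add_one] using this
    · rw [h1]
      rw [Cardinal.lift_id'.{0, 1}]
      rw [← Ordinal.lift_cof, hκ.isRegular.cof_ord]
      exact Cardinal.lift_lt.2 hc

end SF.H14
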