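import Pool.Agent.H77.SF.KT2

/-! The preimage of the category forcing. -/

open Ordinal Cardinal Order Set
open scoped ZFSet

namespace SF.H14

open SF

theorem pair_mem_lim {o : Ordinal.{0}} (ho : IsSuccLimit o) {x y : V} (hx : x ∈ V_ o)
    (hy : y ∈ V_ o) : ZFSet.pair x y ∈ V_ o := by
  rw [ZFSet.mem_vonNeumann] at hx hy ⊢
  have h1 := ho.succ_lt hx
  have h2 := ho.succ_lt hy
  have h3 := ho.succ_lt h1
  have h4 := ho.succ_lt h2
  have h5 : Order.succ (max (Order.succ x.rank) (Order.succ y.rank)) < o :=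
    ho.succ_lt (max_lt h1 h2)
  rw [ZFSet.pair, ZFSet.rank_pair, ZFSet.rank_singleton, ZFSet.rank_pair]
  exact max_lt h3 h5

theorem pair_mem_left {o : Ordinal.{0}} {x y : V} (h : ZFSet.pair x y ∈ V_ o) : x ∈ V_ o := by
  rw [ZFSet.mem_vonNeumann] at h ⊢
  have h1 : ({x} : V) ∈ ZFSet.pair x y := by rw [ZFSet.pair]; simp
  have h2 : x ∈ ({x} : V) := ZFSet.mem_singleton.2 rfl
  exact (ZFSet.rank_lt_of_mem h2).trans ((ZFSet.rank_lt_of_mem h1).trans h)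

theorem pair_mem_right {o : Ordinal.{0}} {x y : V} (h : ZFSet.pair x y ∈ V_ o) : y ∈ V_ o := by
  rw [ZFSet.mem_vonNeumann] at h ⊢
  have h1 : ({x, y} : V) ∈ ZFSet.pair x y := by rw [ZFSet.pair]; simp
  have h2 : y ∈ ({x, y} : V) := by simp
  exact (ZFSet.rank_lt_of_mem h2).trans ((ZFSet.rank_lt_of_mem h1).trans h)

section

variable {κ' κ : Cardinal.{0}} {lam' lam : Ordinal.{0}} {j : V}

theorem emb_mem (h : SEmb κ' κ lam' lam j) {x u : V} (hx : x ∈ V_ lam') (hu : u ∈ V_ lam') :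
    x ∈ u ↔ app j x ∈ app j u := by
  have h1 := h.el.el (.mem 0 1) (fun n => if n = 0 then x else u) (by
    intro i
    by_cases hi : i = 0
    · simp only [hi, if_true]; exact hx
    · simp only [hi, if_false]; exact hu)
  simp only [Sat, SatP, if_true, one_ne_zero, if_false] at h1
  exact h1

/-- the principle behind both parts -/
theorem pre (h : SEmb κ' κ lam' lam j) (F : Ordinal.{0} → V)
    (hF : F κ.ord ⊆ V_ κ.ord) (hF' : F κ'.ord ⊆ V_ κ'.ord)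
    (hFF : ∀ x ∈ V_ κ'.ord, (x ∈ F κ.ord ↔ x ∈ F κ'.ord)) (u : V) (hu : u ∈ V_ lam')
    (hju : app j u = F κ.ord) : u = F κ'.ord := by
  ext x
  constructor
  · intro hx
    have hxl : x ∈ V_ lam' := (ZFSet.isTransitive_vonNeumann lam').subset_of_mem hu hx
    have h1 := (emb_mem h hxl hu).1 hx
    rw [hju] at h1
    have h2 := h.back x hxl (hF h1)
    rw [h.fix x h2] at h1
    exact (hFF x h2).1 h1
  · intro hx
    have h2 := hF' hx
    have hxl : x ∈ V_ lam' := by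
      rw [ZFSet.mem_vonNeumann] at h2 ⊢
      exact h2.trans h.lt'
    rw [emb_mem h hxl hu, hju, h.fix x h2]
    exact (hFF x h2).2 hx

end

theorem kza : T_KZA := by
  intro κ' κ lam' lam j h
  have hlim' : IsSuccLimit κ'.ord := Cardinal.isSuccLimit_ord h.inac'.1.le
  have hlim : IsSuccLimit κ.ord := Cardinal.isSuccLimit_ord h.inac.1.le
  have hUV : ∀ κ : Ordinal.{0}, UU κ ⊆ V_ κ := fun κ x hx => (ZFSet.mem_sep.1 hx).1
  have hUU : ∀ x ∈ V_ κ'.ord, (x ∈ UU κ.ord ↔ x ∈ UU κ'.ord) := by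
    intro x hx
    have hx' : x ∈ V_ κ.ord := by
      rw [ZFSet.mem_vonNeumann] at hx ⊢
      exact hx.trans (Cardinal.ord_lt_ord.2 h.lt)
    rw [UU, UU, ZFSet.mem_sep, ZFSet.mem_sep]
    exact ⟨fun h => ⟨hx, h.2⟩, fun h => ⟨hx', h.2⟩⟩
  have hLV : ∀ κ : Ordinal.{0}, IsSuccLimit κ → UL κ ⊆ V_ κ := by
    intro κ hκ x hx
    obtain ⟨a, ha, b, hb, rfl⟩ := ZFSet.mem_prod.1 (ZFSet.mem_sep.1 hx).1
    exact pair_mem_lim hκ (hUV _ ha) (hUV _ hb)
  refine ⟨pre h UU (hUV _) (hUV _) hUU, pre h UL (hLV _ hlim) (hLV _ hlim') ?_⟩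
  intro x hx
  rw [UL, UL, ZFSet.mem_sep, ZFSet.mem_sep]
  constructor
  · rintro ⟨h1, h2⟩
    obtain ⟨a, ha, b, hb, rfl⟩ := ZFSet.mem_prod.1 h1
    exact ⟨ZFSet.pair_mem_prod.2 ⟨(hUU a (pair_mem_left hx)).1 ha,
      (hUU b (pair_mem_right hx)).1 hb⟩, h2⟩
  · rintro ⟨h1, h2⟩
    obtain ⟨a, ha, b, hb, rfl⟩ := ZFSet.mem_prod.1 h1
    exact ⟨ZFSet.pair_mem_prod.2 ⟨(hUU a (pair_mem_left hx)).2 ha,
      (hUU b (pair_mem_right hx)).2 hb⟩, h2⟩

end SF.H14
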