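import Pool.Agent.H9.SF.QDefs

/-! Module TSB: a generic filter of the two-step forcing gives two generic filters. -/

set_option linter.unusedVariables false

open Ordinal Cardinal Order Set
open scoped ZFSet

namespace SF.H14.TSB

open SF

theorem mem_pos {B b : V} : b ∈ pos B ↔ b ∈ B ∧ b ≠ ∅ := by
  unfold pos
  rw [ZFSet.mem_sdiff, ZFSet.mem_singleton]

theorem mem_incl {B b b1 : V} : ZFSet.pair b b1 ∈ incl B ↔ (b ∈ pos B ∧ b1 ∈ pos B) ∧ b ⊆ b1 := by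
  unfold incl
  rw [ZFSet.mem_sep, ZFSet.pair_mem_prod, fst_pair, snd_pair]

theorem mem_qS {B mu b ξ : V} : ZFSet.pair b ξ ∈ qS B mu ↔ b ∈ pos B ∧ ξ ∈ mu := by
  unfold qS
  rw [ZFSet.pair_mem_prod]

theorem of_qS {B mu q : V} (h : q ∈ qS B mu) :
    ∃ b ξ, q = ZFSet.pair b ξ ∧ b ∈ pos B ∧ ξ ∈ mu := by
  obtain ⟨b, hb, ξ, hξ, e⟩ := ZFSet.mem_prod.1 h
  exact ⟨b, ξ, e, hb, hξ⟩

theorem mem_qR {B mu ρ b ξ b1 ξ1 : V} :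
    ZFSet.pair (ZFSet.pair b ξ) (ZFSet.pair b1 ξ1) ∈ qR B mu ρ ↔
      ((b ∈ pos B ∧ ξ ∈ mu) ∧ b1 ∈ pos B ∧ ξ1 ∈ mu) ∧ b ⊆ b1 ∧
        b ⊆ app ρ (ZFSet.pair ξ ξ1) := by
  unfold qR
  simp only [ZFSet.mem_sep, ZFSet.pair_mem_prod, fst_pair, snd_pair, mem_qS]

theorem mem_rt {mu ρ G ξ η : V} : ZFSet.pair ξ η ∈ rt mu ρ G ↔
    (ξ ∈ mu ∧ η ∈ mu) ∧ app ρ (ZFSet.pair ξ η) ∈ G := by
  unfold rt
  rw [ZFSet.mem_sep, ZFSet.pair_mem_prod]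

/-- the value of `ξ ∈ n` -/
noncomputable def dd (M : V → Prop) (B ξ n : V) : V :=
  bv M B (.mem 0 1) (cons (ck (pos B) ξ) fun _ => n)

theorem tm_dd (hFH : T_FH) (hWF : T_WF) :
    Tm ZFm (fun M v => dd M (v 0) (v 1) (v 2)) := by
  have hck : Tm ZFm (fun _ v => ck (pos (v 0)) (v 1)) :=
    Tm.at2 (F := fun _ x y => ck x y) hFH.2.2.2.2.2.1 hWF.2.2.1 (Tm.var 1)
  have h := (hWF.2.2.2.2 (.mem 0 1)).comp (fun i => match i with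
    | 0 => fun _ v => v 0
    | 1 => fun _ v => ck (pos (v 0)) (v 1)
    | _ + 2 => fun _ v => v 2) (fun i => by
      rcases i with _ | _ | i
      · exact Tm.var 0
      · exact hck
      · exact Tm.var 2)
  refine h.congr fun M k v hv => ?_
  unfold dd
  congr 1
  funext i
  cases i <;> rfl

theorem Tm.dd (hFH : T_FH) (hWF : T_WF) {f g h : (V → Prop) → (ℕ → V) → V} (hf : Tm ZFm f)
    (hg : Tm ZFm g) (hh : Tm ZFm h) : Tm ZFm (fun M v => dd M (f M v) (g M v) (h M v)) :=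
  Tm.at3 (F := fun M x y z => SF.H14.TSB.dd M x y z) (tm_dd hFH hWF) hf hg hh

theorem tsb (hFH : T_FH) (hQA : T_QA) (hWF : T_WF) (hWH : T_WH) (hWI : T_WI) : T_TSB := by
  intro M B mu ρ K kM hctb hB hCB hB0 hmu hρ hpre hK
  have hPo : IsPo (qS B mu) (qR B mu ρ) := hQA.1 M B mu ρ hCB hB0 hpre
  have tpos : Tm ZFm (fun _ v => pos (v 0)) := hWF.2.2.1
  have tqS : Tm ZFm (fun _ v => qS (v 0) (v 1)) := Tm.prod tpos (Tm.var 1)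
  have hρB : ∀ ξ ∈ mu, ∀ η ∈ mu, app ρ (ZFSet.pair ξ η) ∈ B := fun ξ hξ η hη =>
    app_mem hpre.func (ZFSet.pair_mem_prod.2 ⟨hξ, hη⟩)
  obtain ⟨hKf, hKg⟩ := hK
  have hKq : ∀ z ∈ K, ∃ b ξ, z = ZFSet.pair b ξ ∧ b ∈ pos B ∧ ξ ∈ mu := fun z hz =>
    of_qS (hKf.sub hz)
  have hKm : ∀ b ξ, ZFSet.pair b ξ ∈ K → b ∈ pos B ∧ ξ ∈ mu := fun b ξ h =>
    mem_qS.1 (hKf.sub h)
  have hKup : ∀ b ξ b1 ξ1, ZFSet.pair b ξ ∈ K → b1 ∈ pos B → ξ1 ∈ mu → b ⊆ b1 →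
      b ⊆ app ρ (ZFSet.pair ξ ξ1) → ZFSet.pair b1 ξ1 ∈ K := fun b ξ b1 ξ1 h h1 h2 h3 h4 =>
    hKf.up _ h _ (mem_qR.2 ⟨⟨hKm b ξ h, h1, h2⟩, h3, h4⟩)
  have hKdir : ∀ b ξ b1 ξ1, ZFSet.pair b ξ ∈ K → ZFSet.pair b1 ξ1 ∈ K →
      ∃ b2 ζ, ZFSet.pair b2 ζ ∈ K ∧ b2 ⊆ b ∧ b2 ⊆ b1 ∧ b2 ⊆ app ρ (ZFSet.pair ζ ξ) ∧
        b2 ⊆ app ρ (ZFSet.pair ζ ξ1) := by
    intro b ξ b1 ξ1 h h1
    obtain ⟨s, hs, hs1, hs2⟩ := hKf.dir _ h _ h1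
    obtain ⟨b2, ζ, rfl, -, -⟩ := hKq s hs
    have h2 := mem_qR.1 hs1
    have h3 := mem_qR.1 hs2
    exact ⟨b2, ζ, hs, h2.2.1, h3.2.1, h2.2.2, h3.2.2⟩
  -- the first filter
  have hne : ∃ b ξ, ZFSet.pair b ξ ∈ K := by
    obtain ⟨z, hz⟩ := (ZFSet.nonempty_def K).1 hKf.ne
    obtain ⟨b, ξ, rfl, -, -⟩ := hKq z hz
    exact ⟨b, ξ, hz⟩
  have hG : Gen M (pos B) (incl B) (dm K) := by
    refine ⟨⟨?_, ?_, ?_, ?_⟩, ?_⟩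
    · intro b hb
      obtain ⟨ξ, hξ⟩ := mem_dm.1 hb
      exact (hKm b ξ hξ).1
    · obtain ⟨b, ξ, h⟩ := hne
      exact (ZFSet.nonempty_def _).2 ⟨b, mem_dm.2 ⟨ξ, h⟩⟩
    · intro b hb b1 hb1
      obtain ⟨ξ, hξ⟩ := mem_dm.1 hb
      obtain ⟨⟨h1, h2⟩, h3⟩ := mem_incl.1 hb1
      have hξm := (hKm b ξ hξ).2
      exact mem_dm.2 ⟨ξ, hKup b ξ b1 ξ hξ h2 hξm h3 (hpre.refl ξ hξm b (mem_pos.1 h1).1)⟩
    · intro b hb b1 hb1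
      obtain ⟨ξ, hξ⟩ := mem_dm.1 hb
      obtain ⟨ξ1, hξ1⟩ := mem_dm.1 hb1
      obtain ⟨b2, ζ, h, h2, h3, -, -⟩ := hKdir b ξ b1 ξ1 hξ hξ1
      exact ⟨b2, mem_dm.2 ⟨ζ, h⟩, mem_incl.2 ⟨⟨(hKm _ _ h).1, (hKm _ _ hξ).1⟩, h2⟩,
        mem_incl.2 ⟨⟨(hKm _ _ h).1, (hKm _ _ hξ1).1⟩, h3⟩⟩
    · intro D hD hDd
      have h1 : Tm ZFm (fun _ v => (qS (v 0) (v 1)).sep fun q => fst (cons q v 0) ∈ cons q v 3) :=
        Tm.sep (R := fun _ v => fst (v 0) ∈ v 3)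
          (Dfb.mem (Tm.fst (Tm.var 0)) (Tm.var 3)) tqS
      have hE : M ((qS B mu).sep fun q => fst q ∈ D) :=
        h1.1 M kM (cons B (cons mu fun _ => D)) (In.cons (In.cons (fun _ => hD) hmu) hB)
      obtain ⟨q, hqK, hqE⟩ := hKg _ hE ⟨fun z hz => (ZFSet.mem_sep.1 hz).1, by
        intro q hq
        obtain ⟨b, ξ, rfl, hb, hξ⟩ := of_qS hq
        obtain ⟨d, hd, hdb⟩ := hDd.2 b hb
        obtain ⟨⟨h2, h3⟩, h4⟩ := mem_incl.1 hdb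
        refine ⟨ZFSet.pair d ξ, ZFSet.mem_sep.2 ⟨mem_qS.2 ⟨h2, hξ⟩, ?_⟩, ?_⟩
        · rw [fst_pair]
          exact hd
        · exact mem_qR.2 ⟨⟨⟨h2, hξ⟩, h3, hξ⟩, h4, hpre.refl ξ hξ d (mem_pos.1 h2).1⟩⟩
      obtain ⟨b, ξ, rfl, -, -⟩ := hKq q hqK
      have h5 := (ZFSet.mem_sep.1 hqE).2
      rw [fst_pair] at h5
      exact ⟨b, mem_dm.2 ⟨ξ, hqK⟩, h5⟩
  -- the product
  have hprod : ∀ b η, b ∈ dm K → η ∈ rg K → ZFSet.pair b η ∈ K := by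
    intro b η hb hη
    obtain ⟨ξ, hξ⟩ := mem_dm.1 hb
    obtain ⟨b1, hb1⟩ := mem_rg.1 hη
    obtain ⟨b2, ζ, h, h2, h3, h4, h5⟩ := hKdir b ξ b1 η hξ hb1
    exact hKup b2 ζ b η h (hKm _ _ hξ).1 (hKm _ _ hb1).2 h2 h5
  obtain ⟨wh1, wh2, wh3, -, -, -⟩ := hWH M B (dm K) kM hB hCB hG
  refine ⟨hG, ⟨⟨?_, ?_, ?_, ?_⟩, ?_⟩, ?_⟩
  · intro ξ hξ
    obtain ⟨b, hb⟩ := mem_rg.1 hξ
    exact (hKm b ξ hb).2
  · obtain ⟨b, ξ, h⟩ := hne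
    exact (ZFSet.nonempty_def _).2 ⟨ξ, mem_rg.2 ⟨b, h⟩⟩
  · intro ξ hξ η hη
    obtain ⟨⟨h1, h2⟩, h3⟩ := mem_rt.1 hη
    have h4 := hprod _ _ h3 hξ
    exact mem_rg.2 ⟨_, hKup _ _ _ _ h4 (hKm _ _ h4).1 h2 (fun _ h => h) (fun _ h => h)⟩
  · intro ξ hξ ξ1 hξ1
    obtain ⟨b, hb⟩ := mem_rg.1 hξ
    obtain ⟨b1, hb1⟩ := mem_rg.1 hξ1
    obtain ⟨b2, ζ, h, h2, h3, h4, h5⟩ := hKdir b ξ b1 ξ1 hb hb1
    have hζ := (hKm _ _ h).2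
    have hb2 : b2 ∈ dm K := mem_dm.2 ⟨ζ, h⟩
    exact ⟨ζ, mem_rg.2 ⟨b2, h⟩,
      mem_rt.2 ⟨⟨hζ, (hKm _ _ hb).2⟩, wh3 b2 hb2 _ (hρB ζ hζ ξ (hKm _ _ hb).2) h4⟩,
      mem_rt.2 ⟨⟨hζ, (hKm _ _ hb1).2⟩, wh3 b2 hb2 _ (hρB ζ hζ ξ1 (hKm _ _ hb1).2) h5⟩⟩
  · -- generic over the extension
    intro D1 hD1 hDd
    obtain ⟨n, hn, rfl⟩ := hD1
    have hmuM : ∀ ξ ∈ mu, M ξ := fun ξ hξ => kM.trans _ hmu ξ hξ
    have hposM : M (pos B) := tpos.1 M kM (fun _ => B) (fun _ => hB)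
    have hckM : ∀ ξ ∈ mu, M (ck (pos B) ξ) := fun ξ hξ =>
      hFH.2.2.2.2.2.1.1 M kM (cons (pos B) fun _ => ξ) (In.cons (fun _ => hmuM ξ hξ) hposM)
    have hIn : ∀ ξ ∈ mu, In M (cons (ck (pos B) ξ) fun _ => n) := fun ξ hξ =>
      In.cons (fun _ => hn) (hckM ξ hξ)
    have hddB : ∀ ξ ∈ mu, dd M B ξ n ∈ B := fun ξ hξ =>
      (hWI M B kM hB hCB hB0 (.mem 0 1) _ (hIn ξ hξ)).1
    have hddG : ∀ ξ ∈ mu, (dd M B ξ n ∈ dm K ↔ ξ ∈ val (dm K) n) := by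
      intro ξ hξ
      have h1 := (hWI M B kM hB hCB hB0 (.mem 0 1) _ (hIn ξ hξ)).2.2 (dm K) hG
      have h2 : val (dm K) (ck (pos B) ξ) = ξ := hFH.2.1 (pos B) (dm K) ξ hG.1.sub hG.1.ne
      unfold dd
      rw [h1]
      simp only [Sat, SatP, cons_zero, cons_succ, h2]
    have h1 : Dfb ZFm (fun M v => fst (v 0) ⊆ dd M (v 1) (snd (v 0)) (v 4) ∨
        ∀ q1 ∈ qS (v 1) (v 2), fst q1 ⊆ fst (v 0) →
          fst q1 ⊆ app (v 3) (ZFSet.pair (snd q1) (snd (v 0))) →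
          ¬ fst q1 ⊆ dd M (v 1) (snd q1) (v 4)) := by
      refine (Dfb.subset (Tm.fst (Tm.var 0))
        (Tm.dd hFH hWF (Tm.var 1) (Tm.snd (Tm.var 0)) (Tm.var 4))).or ?_
      refine (Dfb.ball (R := fun M v => fst (v 0) ⊆ fst (v 1) →
          fst (v 0) ⊆ app (v 4) (ZFSet.pair (snd (v 0)) (snd (v 1))) →
          ¬ fst (v 0) ⊆ dd M (v 2) (snd (v 0)) (v 5)) ktr_zfm (tqS.rn (fun i => i + 1))
        ?_).congr fun M k v hv => Iff.rfl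
      exact (Dfb.subset (Tm.fst (Tm.var 0)) (Tm.fst (Tm.var 1))).imp
        ((Dfb.subset (Tm.fst (Tm.var 0)) (Tm.app (Tm.var 4)
          (Tm.pair (Tm.snd (Tm.var 0)) (Tm.snd (Tm.var 1))))).imp
          (Dfb.subset (Tm.fst (Tm.var 0))
            (Tm.dd hFH hWF (Tm.var 2) (Tm.snd (Tm.var 0)) (Tm.var 5))).not)
    have h2 := Tm.sep h1 tqS
    set E := (qS B mu).sep fun q => fst q ⊆ dd M B (snd q) n ∨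
      ∀ q1 ∈ qS B mu, fst q1 ⊆ fst q → fst q1 ⊆ app ρ (ZFSet.pair (snd q1) (snd q)) →
        ¬ fst q1 ⊆ dd M B (snd q1) n with hE
    have hEM : M E := h2.1 M kM (cons B (cons mu (cons ρ fun _ => n)))
      (In.cons (In.cons (In.cons (fun _ => hn) hρ) hmu) hB)
    have hEd : IsDense (qS B mu) (qR B mu ρ) E := by
      refine ⟨fun z hz => (ZFSet.mem_sep.1 hz).1, fun q hq => ?_⟩
      by_cases hc : ∃ q1 ∈ qS B mu, fst q1 ⊆ fst q ∧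
          fst q1 ⊆ app ρ (ZFSet.pair (snd q1) (snd q)) ∧ fst q1 ⊆ dd M B (snd q1) n
      · obtain ⟨q1, hq1, a1, a2, a3⟩ := hc
        refine ⟨q1, ZFSet.mem_sep.2 ⟨hq1, Or.inl a3⟩, ?_⟩
        obtain ⟨b, ξ, rfl, hb, hξ⟩ := of_qS hq
        obtain ⟨b1, ξ1, rfl, hb1, hξ1⟩ := of_qS hq1
        simp only [fst_pair, snd_pair] at a1 a2
        exact mem_qR.2 ⟨⟨⟨hb1, hξ1⟩, hb, hξ⟩, a1, a2⟩
      · refine ⟨q, ZFSet.mem_sep.2 ⟨hq, Or.inr ?_⟩, hPo.refl q hq⟩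
        intro q1 hq1 a1 a2 a3
        exact hc ⟨q1, hq1, a1, a2, a3⟩
    obtain ⟨q, hqK, hqE⟩ := hKg _ hEM hEd
    obtain ⟨b, ξ, rfl, hb, hξ⟩ := hKq q hqK
    have hbG : b ∈ dm K := mem_dm.2 ⟨ξ, hqK⟩
    have hξH : ξ ∈ rg K := mem_rg.2 ⟨b, hqK⟩
    obtain ⟨-, h3 | h3⟩ := ZFSet.mem_sep.1 hqE
    · simp only [fst_pair, snd_pair] at h3
      exact ⟨ξ, hξH, (hddG ξ hξ).1 (wh3 b hbG _ (hddB ξ hξ) h3)⟩
    · exfalso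
      obtain ⟨η, hη, hηξ⟩ := hDd.2 ξ hξ
      obtain ⟨⟨hηm, -⟩, hρG⟩ := mem_rt.1 hηξ
      have hdG := (hddG η hηm).2 hη
      have h4 := wh1 _ (wh1 _ hbG _ hρG) _ hdG
      have h5 : b ∩ app ρ (ZFSet.pair η ξ) ∩ dd M B η n ∈ pos B := hG.1.sub h4
      have h6 := h3 (ZFSet.pair (b ∩ app ρ (ZFSet.pair η ξ) ∩ dd M B η n) η)
        (mem_qS.2 ⟨h5, hηm⟩)
      simp only [fst_pair, snd_pair] at h6
      refine h6 (fun z hz => ?_) (fun z hz => ?_) (fun z hz => ?_)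
      · rw [ZFSet.mem_inter, ZFSet.mem_inter] at hz
        exact hz.1.1
      · rw [ZFSet.mem_inter, ZFSet.mem_inter] at hz
        exact hz.1.2
      · rw [ZFSet.mem_inter] at hz
        exact hz.2
  · ext z
    constructor
    · intro hz
      obtain ⟨b, ξ, rfl, -, -⟩ := hKq z hz
      exact ZFSet.pair_mem_prod.2 ⟨mem_dm.2 ⟨ξ, hz⟩, mem_rg.2 ⟨b, hz⟩⟩
    · intro hz
      obtain ⟨b, hb, ξ, hξ, rfl⟩ := ZFSet.mem_prod.1 hz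
      exact hprod b ξ hb hξ

end SF.H14.TSB
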