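import Pool.Agent.H9.SF.QDefs

/-! Module TSC: generic filters on a forcing notion of a model and on its algebra of regular open
sets. -/

set_option linter.unusedVariables false

open Ordinal Cardinal Order Set
open scoped ZFSet

namespace SF.H14

open SF

/-- the regular open set generated by `q` -/
noncomputable def kk (c r q : V) : V := cl c (fun a b => ZFSet.pair a b ∈ r) q

theorem mem_kk {c r q p : V} : p ∈ kk c r q ↔ p ∈ c ∧ ∀ t ∈ c, ZFSet.pair t p ∈ r →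
    ∃ s ∈ c, ZFSet.pair s t ∈ r ∧ ZFSet.pair s q ∈ r := by
  unfold kk cl
  rw [ZFSet.mem_sep]

theorem tm_kk : Tm ZFm (fun _ v => kk (v 0) (v 1) (v 2)) := by
  have h1 : Dfb ZFm (fun _ v => ∀ t ∈ v 1, (ZFSet.pair t (v 0) ∈ v 2 →
      ∃ s ∈ v 1, ZFSet.pair s t ∈ v 2 ∧ ZFSet.pair s (v 3) ∈ v 2)) := by
    refine (Dfb.ball (R := fun _ v => ZFSet.pair (v 0) (v 1) ∈ v 3 →
      ∃ s ∈ v 2, ZFSet.pair s (v 0) ∈ v 3 ∧ ZFSet.pair s (v 4) ∈ v 3) ktr_zfm (Tm.var 1)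
      ((Dfb.pairMem (Tm.var 0) (Tm.var 1) (Tm.var 3)).imp ?_)).congr fun M k v hv => Iff.rfl
    exact (Dfb.bex (R := fun _ v => ZFSet.pair (v 0) (v 1) ∈ v 4 ∧
      ZFSet.pair (v 0) (v 5) ∈ v 4) ktr_zfm (Tm.var 2)
      ((Dfb.pairMem (Tm.var 0) (Tm.var 1) (Tm.var 4)).and
        (Dfb.pairMem (Tm.var 0) (Tm.var 5) (Tm.var 4)))).congr fun M k v hv => Iff.rfl
  refine (Tm.sep h1 (Tm.var 0)).congr fun M k v hv => ?_
  ext x
  rw [ZFSet.mem_sep, mem_kk]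
  exact Iff.rfl

theorem Tm.kk {f g h : (V → Prop) → (ℕ → V) → V} (hf : Tm ZFm f) (hg : Tm ZFm g)
    (hh : Tm ZFm h) : Tm ZFm (fun M v => kk (f M v) (g M v) (h M v)) :=
  Tm.at3 (F := fun _ x y z => SF.H14.kk x y z) tm_kk hf hg hh

section
variable {c r : V} (hP : IsPo c r)
include hP

theorem po_left {p q : V} (h : ZFSet.pair p q ∈ r) : p ∈ c := by
  obtain ⟨a, ha, b, hb, e⟩ := hP.sub _ h
  obtain ⟨rfl, rfl⟩ := ZFSet.pair_injective e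
  exact ha

theorem po_right {p q : V} (h : ZFSet.pair p q ∈ r) : q ∈ c := by
  obtain ⟨a, ha, b, hb, e⟩ := hP.sub _ h
  obtain ⟨rfl, rfl⟩ := ZFSet.pair_injective e
  exact hb

theorem self_kk {q : V} (hq : q ∈ c) : q ∈ kk c r q :=
  mem_kk.2 ⟨hq, fun t ht h => ⟨t, ht, hP.refl t ht, h⟩⟩

theorem rego_kk (q : V) : RegO c r (kk c r q) := by
  refine ⟨fun p hp => (mem_kk.1 hp).1, ?_, ?_⟩
  · intro p hp p1 h1
    obtain ⟨-, h2⟩ := mem_kk.1 hp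
    exact mem_kk.2 ⟨po_left hP h1, fun t ht h => h2 t ht (hP.trans _ _ _ h h1)⟩
  · intro p hp h
    refine mem_kk.2 ⟨hp, fun t ht h1 => ?_⟩
    obtain ⟨p1, hp1, hp2⟩ := h t h1
    obtain ⟨hc1, h2⟩ := mem_kk.1 hp1
    obtain ⟨s, hs, hs1, hs2⟩ := h2 p1 hc1 (hP.refl _ hc1)
    exact ⟨s, hs, hP.trans _ _ _ hs1 hp2, hs2⟩

theorem kk_sub {O q : V} (hO : RegO c r O) (hq : q ∈ O) : kk c r q ⊆ O := by
  intro p hp
  obtain ⟨hpc, h⟩ := mem_kk.1 hp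
  refine hO.2.2 p hpc fun t ht => ?_
  obtain ⟨s, hs, hs1, hs2⟩ := h t (po_left hP ht) ht
  exact ⟨s, hO.2.1 q hq s hs2, hs1⟩

theorem kk_mono {q q1 : V} (h : ZFSet.pair q q1 ∈ r) : kk c r q ⊆ kk c r q1 := by
  refine kk_sub hP (rego_kk hP q1) ?_
  exact (rego_kk hP q1).2.1 q1 (self_kk hP (po_right hP h)) q h

end

theorem tsc : T_TSC := by
  intro N c r C G kN hc hr hC hP hCR hG
  have hcN : ∀ x ∈ c, x ∈ N := fun x hx => kN.trans _ hc x hx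
  have hkN : ∀ q ∈ c, kk c r q ∈ N := by
    intro q hq
    exact tm_kk.1 (· ∈ N) kN (cons c (cons r fun _ => q))
      (In.cons (M := (· ∈ N)) (In.cons (M := (· ∈ N)) (fun _ => hcN q hq) hr) hc)
  have hkC : ∀ q ∈ c, kk c r q ∈ C := fun q hq => (hCR _ (hkN q hq)).2 (rego_kk hP q)
  have hCreg : ∀ O ∈ C, RegO c r O := fun O hO => (hCR O (kN.trans _ hC O hO)).1 hO
  have hne : ∀ x : V, x ≠ ∅ → ∃ t, t ∈ x := fun x hx => by
    by_contra h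
    exact hx ((ZFSet.eq_empty x).2 fun y hy => h ⟨y, hy⟩)
  -- images
  have himg : ∀ Z ∈ N, imS Z (fun q => kk c r q) ∈ N := by
    intro Z hZ
    have h1 : Tm ZFm (fun _ v => imS (v 0) fun x => SF.H14.kk (cons x v 2) (cons x v 3)
        (cons x v 0)) :=
      Tm.image (Tm.var 0) (Tm.kk (Tm.var 2) (Tm.var 3) (Tm.var 0))
    exact h1.1 (· ∈ N) kN (cons Z (cons c fun _ => r))
      (In.cons (M := (· ∈ N)) (In.cons (M := (· ∈ N)) (fun _ => hr) hc) hZ)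
  have hemp : ∀ q ∈ c, kk c r q ≠ ∅ := fun q hq h =>
    ZFSet.notMem_empty q (h ▸ self_kk hP hq)
  -- the general form of the density argument
  have hmeet : ∀ Z ∈ N, Z ⊆ c → (∀ x ∈ C, x ≠ ∅ → ∃ q ∈ Z, kk c r q ⊆ x) →
      ∃ q ∈ Z, kk c r q ∈ G := by
    intro Z hZ hZc h
    obtain ⟨d, hd, hdG⟩ := hG.meets (imS Z fun q => kk c r q) (himg Z hZ) (by
      intro y hy
      obtain ⟨q, hq, rfl⟩ := mem_imS.1 hy
      exact hkC q (hZc hq)) (by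
      intro x hx hx0
      obtain ⟨q, hq, hqx⟩ := h x hx hx0
      exact ⟨_, mem_imS.2 ⟨q, hq, rfl⟩, hemp q (hZc hq), hqx⟩)
    obtain ⟨q, hq, rfl⟩ := mem_imS.1 hd
    exact ⟨q, hq, hdG⟩
  have hmemK : ∀ q, (q ∈ c.sep fun q => kk c r q ∈ G) ↔ q ∈ c ∧ kk c r q ∈ G := fun q =>
    ZFSet.mem_sep
  show Gen (· ∈ N) c r (c.sep fun q => kk c r q ∈ G) ∧ ∀ O ∈ C, O ∈ G ↔ ∃ q ∈ O, kk c r q ∈ G
  refine ⟨⟨⟨?_, ?_, ?_, ?_⟩, ?_⟩, ?_⟩
  · intro q hq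
    exact ((hmemK q).1 hq).1
  · -- nonempty
    obtain ⟨q, hq, hqG⟩ := hmeet c hc (fun _ h => h) (by
      intro x hx hx0
      obtain ⟨t, ht⟩ := hne x hx0
      exact ⟨t, (hCreg x hx).1 ht, kk_sub hP (hCreg x hx) ht⟩)
    exact ZFSet.nonempty_def _ |>.2 ⟨q, (hmemK q).2 ⟨hq, hqG⟩⟩
  · -- up
    intro p hp q hpq
    obtain ⟨hpc, hpG⟩ := (hmemK p).1 hp
    exact (hmemK q).2 ⟨po_right hP hpq, hG.up _ hpG _ (hkC q (po_right hP hpq))
      (kk_mono hP hpq)⟩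
  · -- directed
    intro q hq q1 hq1
    obtain ⟨hqc, hqG⟩ := (hmemK q).1 hq
    obtain ⟨hq1c, hq1G⟩ := (hmemK q1).1 hq1
    have h1 : Tm ZFm (fun _ v => (v 0).sep fun s =>
        (ZFSet.pair (cons s v 0) (cons s v 3) ∈ cons s v 2 ∧
          ZFSet.pair (cons s v 0) (cons s v 4) ∈ cons s v 2) ∨
        SF.H14.kk (cons s v 1) (cons s v 2) (cons s v 0) ∩
          SF.H14.kk (cons s v 1) (cons s v 2) (cons s v 3) ∩
          SF.H14.kk (cons s v 1) (cons s v 2) (cons s v 4) = ∅) := by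
      refine Tm.sep (R := fun _ v => (ZFSet.pair (v 0) (v 3) ∈ v 2 ∧
          ZFSet.pair (v 0) (v 4) ∈ v 2) ∨
        SF.H14.kk (v 1) (v 2) (v 0) ∩ SF.H14.kk (v 1) (v 2) (v 3) ∩
          SF.H14.kk (v 1) (v 2) (v 4) = ∅) ?_ (Tm.var 0)
      exact ((Dfb.pairMem (Tm.var 0) (Tm.var 3) (Tm.var 2)).and
        (Dfb.pairMem (Tm.var 0) (Tm.var 4) (Tm.var 2))).or
        (Dfb.eq (Tm.inter (Tm.inter (Tm.kk (Tm.var 1) (Tm.var 2) (Tm.var 0))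
          (Tm.kk (Tm.var 1) (Tm.var 2) (Tm.var 3)))
          (Tm.kk (Tm.var 1) (Tm.var 2) (Tm.var 4))) Tm.empty)
    set Z := c.sep fun s => (ZFSet.pair s q ∈ r ∧ ZFSet.pair s q1 ∈ r) ∨
      kk c r s ∩ kk c r q ∩ kk c r q1 = ∅ with hZ
    have hZN : Z ∈ N := h1.1 (· ∈ N) kN (cons c (cons r (cons q fun _ => q1)))
      (In.cons (M := (· ∈ N)) (In.cons (M := (· ∈ N)) (In.cons (M := (· ∈ N))
        (fun _ => hcN q1 hq1c) (hcN q hqc)) hr) hc)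
    obtain ⟨s, hsZ, hsG⟩ := hmeet Z hZN (fun x hx => (ZFSet.mem_sep.1 hx).1) (by
      intro x hx hx0
      have hxr := hCreg x hx
      by_cases he : x ∩ kk c r q ∩ kk c r q1 = ∅
      · obtain ⟨t, ht⟩ := hne x hx0
        refine ⟨t, ZFSet.mem_sep.2 ⟨hxr.1 ht, Or.inr ?_⟩, kk_sub hP hxr ht⟩
        rw [ZFSet.eq_empty] at he ⊢
        intro y hy
        rw [ZFSet.mem_inter, ZFSet.mem_inter] at hy
        refine he y ?_
        rw [ZFSet.mem_inter, ZFSet.mem_inter]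
        exact ⟨⟨kk_sub hP hxr ht hy.1.1, hy.1.2⟩, hy.2⟩
      · obtain ⟨t, ht⟩ := hne _ he
        rw [ZFSet.mem_inter, ZFSet.mem_inter] at ht
        obtain ⟨⟨htx, htq⟩, htq1⟩ := ht
        have htc := hxr.1 htx
        obtain ⟨s1, hs1, hs1t, hs1q⟩ := (mem_kk.1 htq).2 t htc (hP.refl t htc)
        obtain ⟨s2, hs2, hs2s, hs2q⟩ := (mem_kk.1 htq1).2 s1 hs1 hs1t
        have hs2x : s2 ∈ x := hxr.2.1 t htx s2 (hP.trans _ _ _ hs2s hs1t)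
        exact ⟨s2, ZFSet.mem_sep.2 ⟨hs2, Or.inl ⟨hP.trans _ _ _ hs2s hs1q, hs2q⟩⟩,
          kk_sub hP hxr hs2x⟩)
    obtain ⟨hsc, h2 | h2⟩ := ZFSet.mem_sep.1 hsZ
    · exact ⟨s, (hmemK s).2 ⟨hsc, hsG⟩, h2.1, h2.2⟩
    · exfalso
      have h3 := hG.inter _ (hG.inter _ hsG _ hqG) _ hq1G
      rw [h2] at h3
      exact hG.bot h3
  · -- generic
    intro D hD hDd
    obtain ⟨q, hq, hqG⟩ := hmeet D hD hDd.1 (by
      intro x hx hx0
      obtain ⟨t, ht⟩ := hne x hx0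
      obtain ⟨d, hd, hdt⟩ := hDd.2 t ((hCreg x hx).1 ht)
      exact ⟨d, hd, kk_sub hP (hCreg x hx) ((hCreg x hx).2.1 t ht d hdt)⟩)
    exact ⟨q, (hmemK q).2 ⟨hDd.1 hq, hqG⟩, hq⟩
  · -- the second part
    intro O hO
    have hOr := hCreg O hO
    constructor
    · intro hOG
      have h1 : Tm ZFm (fun _ v => (v 0).sep fun s => cons s v 0 ∈ cons s v 3 ∨
          SF.H14.kk (cons s v 1) (cons s v 2) (cons s v 0) ∩ (cons s v 3) = ∅) := by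
        refine Tm.sep (R := fun _ v => v 0 ∈ v 3 ∨
          SF.H14.kk (v 1) (v 2) (v 0) ∩ (v 3) = ∅) ?_ (Tm.var 0)
        exact (Dfb.mem (Tm.var 0) (Tm.var 3)).or
          (Dfb.eq (Tm.inter (Tm.kk (Tm.var 1) (Tm.var 2) (Tm.var 0)) (Tm.var 3)) Tm.empty)
      set Z := c.sep fun s => s ∈ O ∨ kk c r s ∩ O = ∅ with hZ
      have hZN : Z ∈ N := h1.1 (· ∈ N) kN (cons c (cons r fun _ => O))
        (In.cons (M := (· ∈ N)) (In.cons (M := (· ∈ N))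
          (fun _ => kN.trans _ hC O hO) hr) hc)
      obtain ⟨s, hsZ, hsG⟩ := hmeet Z hZN (fun x hx => (ZFSet.mem_sep.1 hx).1) (by
        intro x hx hx0
        have hxr := hCreg x hx
        by_cases he : x ∩ O = ∅
        · obtain ⟨t, ht⟩ := hne x hx0
          refine ⟨t, ZFSet.mem_sep.2 ⟨hxr.1 ht, Or.inr ?_⟩, kk_sub hP hxr ht⟩
          rw [ZFSet.eq_empty] at he ⊢
          intro y hy
          rw [ZFSet.mem_inter] at hy
          refine he y ?_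
          rw [ZFSet.mem_inter]
          exact ⟨kk_sub hP hxr ht hy.1, hy.2⟩
        · obtain ⟨t, ht⟩ := hne _ he
          rw [ZFSet.mem_inter] at ht
          exact ⟨t, ZFSet.mem_sep.2 ⟨hxr.1 ht.1, Or.inl ht.2⟩, kk_sub hP hxr ht.1⟩)
      obtain ⟨hsc, h2 | h2⟩ := ZFSet.mem_sep.1 hsZ
      · exact ⟨s, h2, hsG⟩
      · exfalso
        have h3 := hG.inter _ hsG _ hOG
        rw [h2] at h3
        exact hG.bot h3
    · rintro ⟨q, hq, hqG⟩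
      exact hG.up _ hqG O hO (kk_sub hP hOr hq)

end SF.H14
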